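import Pool.Agent.W719.AR.Geo
import Pool.Agent.W612.HT.Hloc
import Pool.Agent.W554.HT.Gmax

/-!
# Arborescent links: the dihedral angles at a hinge
-/

set_option autoImplicit false

namespace Pool.Agent.W864.AR

open Pool.Agent.W711.HT Pool.Agent.W719.AR Pool.Agent.W554.HT Pool.Agent.W612.HT
open scoped Real

/-- shapes -/
noncomputable def t1 (X G : ℂ) : ℂ := X * (G + 1) / (1 + X * G)

/-- shapes -/
noncomputable def t2 (X G : ℂ) : ℂ := (X - 1) * G / (X * (1 + G))

/-- closeness to the critical configuration -/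
structure Nr (X G : ℂ) : Prop where
  x : ‖X - Complex.I‖ ≤ 7 / 1000
  g : ‖G - 1‖ ≤ 11 / 100

lemma sq2 : ‖(1 + Complex.I : ℂ)‖ ^ 2 = 2 := by
  rw [Complex.sq_norm, Complex.normSq_apply]
  norm_num

lemma n1 : 141 / 100 ≤ ‖(1 + Complex.I : ℂ)‖ ∧ ‖(1 + Complex.I : ℂ)‖ ≤ 142 / 100 := by
  have h := sq2
  have h0 := norm_nonneg (1 + Complex.I : ℂ)
  constructor <;> nlinarith

lemma n2 : ‖(Complex.I - 1 : ℂ)‖ ≤ 142 / 100 := by
  have h : ‖(Complex.I - 1 : ℂ)‖ ^ 2 = 2 := by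
    rw [Complex.sq_norm, Complex.normSq_apply]
    norm_num
  have h0 := norm_nonneg (Complex.I - 1 : ℂ)
  nlinarith

section
variable {X G : ℂ} (h : Nr X G)
include h

lemma Gn : ‖G‖ ≤ 111 / 100 ∧ 89 / 100 ≤ ‖G‖ := by
  have h1 : G = 1 + (G - 1) := by ring
  have h2 : (1 : ℂ) = G - (G - 1) := by ring
  have h3 : ‖G‖ ≤ ‖(1 : ℂ)‖ + ‖G - 1‖ := by
    conv_lhs => rw [h1]
    exact norm_add_le _ _
  have h4 : ‖(1 : ℂ)‖ ≤ ‖G‖ + ‖G - 1‖ := by
    conv_lhs => rw [h2]
    exact norm_sub_le _ _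
  rw [norm_one] at h3 h4
  have := h.g
  constructor <;> linarith

lemma Xn : ‖X‖ ≤ 1007 / 1000 ∧ 993 / 1000 ≤ ‖X‖ := by
  have h1 : X = Complex.I + (X - Complex.I) := by ring
  have h2 : Complex.I = X - (X - Complex.I) := by ring
  have h3 : ‖X‖ ≤ ‖Complex.I‖ + ‖X - Complex.I‖ := by
    conv_lhs => rw [h1]
    exact norm_add_le _ _
  have h4 : ‖Complex.I‖ ≤ ‖X‖ + ‖X - Complex.I‖ := by
    conv_lhs => rw [h2]
    exact norm_sub_le _ _
  rw [Complex.norm_I] at h3 h4
  have := h.x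
  constructor <;> linarith

lemma G1n : 189 / 100 ≤ ‖1 + G‖ ∧ ‖1 + G‖ ≤ 211 / 100 := by
  have h2 : (2 : ℂ) = (1 + G) - (G - 1) := by ring
  have h4 : ‖(2 : ℂ)‖ ≤ ‖1 + G‖ + ‖G - 1‖ := by
    conv_lhs => rw [h2]
    exact norm_sub_le _ _
  have h5 := norm_add_le 1 G
  have h6 := Gn h
  rw [norm_one] at h5
  rw [Complex.norm_two] at h4
  have := h.g
  constructor <;> linarith

lemma XGn : 129 / 100 ≤ ‖1 + X * G‖ := by
  have h2 : (1 + Complex.I : ℂ) = (1 + X * G) - ((X - Complex.I) * G + Complex.I * (G - 1)) := by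
    ring
  have h4 : ‖(1 + Complex.I : ℂ)‖ ≤ ‖1 + X * G‖ + ‖(X - Complex.I) * G + Complex.I * (G - 1)‖ := by
    conv_lhs => rw [h2]
    exact norm_sub_le _ _
  have h5 := norm_add_le ((X - Complex.I) * G) (Complex.I * (G - 1))
  rw [norm_mul, norm_mul, Complex.norm_I, one_mul] at h5
  have h6 := Gn h
  have h7 : ‖X - Complex.I‖ * ‖G‖ ≤ 7 / 1000 * (111 / 100) :=
    mul_le_mul h.x h6.1 (norm_nonneg _) (by norm_num)
  have := h.g
  have := n1
  linarith

lemma ne_G : G ≠ 0 := by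
  intro h0
  have := (Gn h).2
  rw [h0, norm_zero] at this
  norm_num at this

lemma ne_X : X ≠ 0 := by
  intro h0
  have := (Xn h).2
  rw [h0, norm_zero] at this
  norm_num at this

lemma ne_G1 : 1 + G ≠ 0 := by
  intro h0
  have := (G1n h).1
  rw [h0, norm_zero] at this
  norm_num at this

lemma ne_XG : 1 + X * G ≠ 0 := by
  intro h0
  have := XGn h
  rw [h0, norm_zero] at this
  norm_num at this

lemma ne_X1 : X - 1 ≠ 0 := by
  intro h0
  have hX : X = 1 := by linear_combination h0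
  have h1 := h.x
  rw [hX, norm_sub_rev] at h1
  have h2 : ‖(Complex.I - 1 : ℂ)‖ ^ 2 = 2 := by
    rw [Complex.sq_norm, Complex.normSq_apply]
    norm_num
  have h0 := norm_nonneg (Complex.I - 1 : ℂ)
  nlinarith

lemma ne_XaG : X + G ≠ 0 := by
  intro h0
  have h1 : 1 + Complex.I = (X + G) - (X - Complex.I) - (G - 1) := by ring
  rw [h0] at h1
  have h2 : ‖(1 + Complex.I : ℂ)‖ ≤ ‖X - Complex.I‖ + ‖G - 1‖ := by
    rw [h1, zero_sub]
    have := norm_sub_le (-(X - Complex.I)) (G - 1)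
    rwa [norm_neg] at this
  have := h.x
  have := h.g
  have := n1
  linarith

lemma near1 : ‖t1 X G - (1 + Complex.I)‖ ≤ 1 / 5 := by
  have hd := ne_XG h
  have e : t1 X G - (1 + Complex.I) =
      ((X - Complex.I) * (1 - Complex.I * G) + (G - 1)) / (1 + X * G) := by
    rw [t1, div_sub' hd, div_left_inj' hd]
    have hI : Complex.I * Complex.I = -1 := Complex.I_mul_I
    linear_combination (-G) * hI
  have h3 := XGn h
  rw [e, norm_div, div_le_iff₀ (by linarith)]
  have h4 := norm_add_le ((X - Complex.I) * (1 - Complex.I * G)) (G - 1)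
  have h5 := norm_sub_le 1 (Complex.I * G)
  rw [norm_mul] at h4
  rw [norm_one, norm_mul, Complex.norm_I, one_mul] at h5
  have h6 := Gn h
  have h7 : ‖X - Complex.I‖ * ‖1 - Complex.I * G‖ ≤ 7 / 1000 * (211 / 100) :=
    mul_le_mul h.x (by linarith) (norm_nonneg _) (by norm_num)
  have := h.g
  linarith

lemma near3 : ‖t2 X G / G - (1 + Complex.I) / 2‖ ≤ 1 / 10 := by
  have hX := ne_X h
  have hG := ne_G h
  have hG1 := ne_G1 h
  have hd : 2 * X * (1 + G) ≠ 0 := mul_ne_zero (mul_ne_zero two_ne_zero hX) hG1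
  have e : t2 X G / G - (1 + Complex.I) / 2 =
      ((X - Complex.I) * (2 - (1 + Complex.I) * (1 + G)) + (Complex.I - 1) * (1 - G)) /
        (2 * X * (1 + G)) := by
    rw [t2]
    field_simp
    have hI : Complex.I ^ 2 = -1 := Complex.I_sq
    ring_nf
    rw [hI]
    ring
  have h1 := Xn h
  have h2 := G1n h
  have h3 : (376 / 100 : ℝ) - 1 / 100 ≤ ‖2 * X * (1 + G)‖ := by
    rw [norm_mul, norm_mul, Complex.norm_two]
    have : 993 / 1000 * (189 / 100) ≤ ‖X‖ * ‖1 + G‖ :=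
      mul_le_mul h1.2 h2.1 (by norm_num) (norm_nonneg _)
    nlinarith
  rw [e, norm_div, div_le_iff₀ (by linarith)]
  have h4 := norm_add_le ((X - Complex.I) * (2 - (1 + Complex.I) * (1 + G)))
    ((Complex.I - 1) * (1 - G))
  rw [norm_mul, norm_mul] at h4
  have h5 := norm_sub_le 2 ((1 + Complex.I) * (1 + G))
  rw [norm_mul, Complex.norm_two] at h5
  have h6 : ‖1 + Complex.I‖ * ‖1 + G‖ ≤ 142 / 100 * (211 / 100) :=
    mul_le_mul n1.2 h2.2 (norm_nonneg _) (by norm_num)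
  have h7 : ‖X - Complex.I‖ * ‖2 - (1 + Complex.I) * (1 + G)‖ ≤ 7 / 1000 * 5 :=
    mul_le_mul h.x (by linarith) (norm_nonneg _) (by norm_num)
  have h8 : ‖Complex.I - 1‖ * ‖1 - G‖ ≤ 142 / 100 * (11 / 100) :=
    mul_le_mul n2 (by rw [norm_sub_rev]; exact h.g) (norm_nonneg _) (by norm_num)
  linarith

lemma near2 : ‖t2 X G - (1 + Complex.I) / 2‖ ≤ 1 / 4 := by
  have hG := ne_G h
  have e : t2 X G - (1 + Complex.I) / 2 =
      (t2 X G / G - (1 + Complex.I) / 2) * G + (1 + Complex.I) / 2 * (G - 1) := by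
    field_simp
    ring
  rw [e]
  have h1 := norm_add_le ((t2 X G / G - (1 + Complex.I) / 2) * G) ((1 + Complex.I) / 2 * (G - 1))
  rw [norm_mul, norm_mul, norm_div, Complex.norm_two] at h1
  have h2 : ‖t2 X G / G - (1 + Complex.I) / 2‖ * ‖G‖ ≤ 1 / 10 * (111 / 100) :=
    mul_le_mul (near3 h) (Gn h).1 (norm_nonneg _) (by norm_num)
  have h3 : ‖1 + Complex.I‖ / 2 * ‖G - 1‖ ≤ 142 / 100 / 2 * (11 / 100) :=
    mul_le_mul (by linarith [n1.2]) h.g (norm_nonneg _) (by norm_num)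
  linarith

lemma re1 : 0 < (t1 X G).re ∧ 0 < (t1 X G).im := by
  have h1 := Complex.abs_re_le_norm (t1 X G - (1 + Complex.I))
  have h2 := Complex.abs_im_le_norm (t1 X G - (1 + Complex.I))
  have h3 := near1 h
  simp only [Complex.sub_re, Complex.sub_im, Complex.add_re, Complex.add_im, Complex.one_re,
    Complex.one_im, Complex.I_re, Complex.I_im] at h1 h2
  rw [abs_le] at h1 h2
  constructor <;> linarith [h1.1, h2.1]

omit h in
lemma half_re : ((1 + Complex.I) / 2 : ℂ).re = 1 / 2 ∧ ((1 + Complex.I) / 2 : ℂ).im = 1 / 2 := by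
  constructor
  · simp
  · simp

lemma re2 : 0 < (t2 X G).re ∧ 0 < (t2 X G).im := by
  have h1 := Complex.abs_re_le_norm (t2 X G - (1 + Complex.I) / 2)
  have h2 := Complex.abs_im_le_norm (t2 X G - (1 + Complex.I) / 2)
  have h3 := near2 h
  rw [Complex.sub_re, half_re.1] at h1
  rw [Complex.sub_im, half_re.2] at h2
  rw [abs_le] at h1 h2
  constructor <;> linarith [h1.1, h2.1]

lemma re3 : 0 < (t2 X G / G).re := by
  have h1 := Complex.abs_re_le_norm (t2 X G / G - (1 + Complex.I) / 2)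
  have h3 := near3 h
  rw [Complex.sub_re, half_re.1] at h1
  rw [abs_le] at h1
  linarith [h1.1]

/-! ### the shapes -/

lemma one_sub_t1 : 1 - t1 X G = (1 - X) / (1 + X * G) := by
  have := ne_XG h
  rw [t1]
  field_simp
  ring

lemma one_sub_inv_t1 : 1 - 1 / t1 X G = t2 X G / G := by
  have h1 := ne_XG h
  have h2 := ne_X h
  have h3 := ne_G1 h
  have h4 := ne_G h
  have h5 : G + 1 ≠ 0 := by rwa [add_comm]
  rw [t1, t2]
  field_simp
  ring

lemma one_sub_t2 : 1 - t2 X G = (X + G) / (X * (1 + G)) := by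
  have h2 := ne_X h
  have h3 := ne_G1 h
  rw [t2]
  field_simp
  ring

lemma one_sub_inv_t2 : 1 - 1 / t2 X G = -(X + G) / ((X - 1) * G) := by
  have h2 := ne_X h
  have h3 := ne_G1 h
  have h4 := ne_G h
  have h5 := ne_X1 h
  rw [t2]
  field_simp
  ring

end

lemma arg_half {z : ℂ} (h1 : 0 < z.re) (h2 : 0 < z.im) : 0 < z.arg ∧ z.arg < π / 2 := by
  have h3 := Pool.Agent.W709.VC.arg_mem h2
  refine ⟨h3.1, ?_⟩
  exact (abs_lt.1 (Complex.abs_arg_lt_pi_div_two_iff.2 (Or.inl h1))).2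

lemma arg_lt_half {z : ℂ} (h1 : 0 < z.re) : z.arg < π / 2 :=
  (abs_lt.1 (Complex.abs_arg_lt_pi_div_two_iff.2 (Or.inl h1))).2

lemma arg3 {x y z : ℂ} (hx : x ≠ 0) (hy : y ≠ 0) (hz : z ≠ 0) :
    ((x.arg + y.arg + z.arg : ℝ) : Real.Angle) = ((x * y * z).arg : Real.Angle) := by
  rw [Complex.arg_mul_coe_angle (mul_ne_zero hx hy) hz, Complex.arg_mul_coe_angle hx hy,
    Real.Angle.coe_add, Real.Angle.coe_add]

lemma arg4 {x y z w : ℂ} (hx : x ≠ 0) (hy : y ≠ 0) (hz : z ≠ 0) (hw : w ≠ 0) :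
    ((x.arg + y.arg + z.arg + w.arg : ℝ) : Real.Angle) = ((x * y * z * w).arg : Real.Angle) := by
  rw [Complex.arg_mul_coe_angle (mul_ne_zero (mul_ne_zero hx hy) hz) hw, Real.Angle.coe_add,
    arg3 hx hy hz]

lemma neg_exp (z : ℂ) : -Complex.exp z = Complex.exp (z + π * Complex.I) := by
  rw [Complex.exp_add, Complex.exp_pi_mul_I]
  ring

lemma arg_neg_exp (z : ℂ) : ((-Complex.exp z).arg : Real.Angle) = ((z.im + π : ℝ) : Real.Angle) := by
  rw [neg_exp, Complex.arg_exp, Real.Angle.coe_toIocMod]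
  simp

/-- the hinge equation -/
lemma hinge {ψ ψ' u : ℂ} (h : HP ψ ψ' u) (hd : 2 + Complex.cos ψ + Complex.cos ψ' ≠ 0) :
    -((1 - Complex.exp (Complex.I * u)) ^ 2 * Complex.exp (Complex.I * ψ) *
      (1 + Complex.exp (Complex.I * ψ')) ^ 2) =
    (1 + Complex.exp (Complex.I * ψ)) ^ 2 *
      ((1 + Complex.exp (Complex.I * u) * Complex.exp (Complex.I * ψ')) *
        (Complex.exp (Complex.I * u) + Complex.exp (Complex.I * ψ'))) := by
  have e1 := h.eq
  rw [eq_div_iff hd] at e1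
  have hX : Complex.exp (Complex.I * u) ≠ 0 := Complex.exp_ne_zero _
  have hG : Complex.exp (Complex.I * ψ) ≠ 0 := Complex.exp_ne_zero _
  have hK : Complex.exp (Complex.I * ψ') ≠ 0 := Complex.exp_ne_zero _
  have c (z : ℂ) : Complex.cos z = (Complex.exp (Complex.I * z) + (Complex.exp (Complex.I * z))⁻¹) / 2 := by
    rw [Complex.cos, ← Complex.exp_neg]
    congr 3
    · ring
    · ring
  rw [c u, c ψ, c ψ'] at e1
  set X := Complex.exp (Complex.I * u)
  set G := Complex.exp (Complex.I * ψ)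
  set K := Complex.exp (Complex.I * ψ')
  field_simp at e1
  linear_combination (-1) * e1

lemma nr {ψ ψ' u : ℂ} (h : HP ψ ψ' u) :
    Nr (Complex.exp (Complex.I * u)) (Complex.exp (Complex.I * ψ)) := by
  have hb := basic ψ ψ' u h
  constructor
  · have e : Complex.exp (Complex.I * u) - Complex.I =
        Complex.cos u + (Complex.sin u - 1) * Complex.I := by
      rw [mul_comm, Complex.exp_mul_I]
      ring
    rw [e]
    have h1 := norm_add_le (Complex.cos u) ((Complex.sin u - 1) * Complex.I)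
    rw [norm_mul, Complex.norm_I, mul_one] at h1
    linarith [hb.1, hb.2]
  · have hs := h.sm
    have h0 := norm_nonneg ψ
    have h1 : ‖Complex.exp (Complex.I * ψ) - 1 - Complex.I * ψ‖ ≤ ‖Complex.I * ψ‖ ^ 2 :=
      Complex.norm_exp_sub_one_sub_id_le (by rw [norm_mul, Complex.norm_I, one_mul]; linarith)
    have h2 := norm_add_le (Complex.exp (Complex.I * ψ) - 1 - Complex.I * ψ) (Complex.I * ψ)
    rw [sub_add_cancel] at h2
    rw [norm_mul, Complex.norm_I, one_mul] at h1 h2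
    nlinarith

lemma hp_symm {ψ ψ' u : ℂ} (h : HP ψ ψ' u) : HP ψ' ψ u :=
  ⟨h.ne', h.ne, h.sm', h.sm, h.un, by rw [h.eq]; ring⟩

lemma den {ψ ψ' u : ℂ} (h : HP ψ ψ' u) : 2 + Complex.cos ψ + Complex.cos ψ' ≠ 0 := by
  have h1 := cos_small ψ h.sm
  have h2 := cos_small ψ' h.sm'
  intro h0
  have e : (4 : ℂ) = -((Complex.cos ψ - 1) + (Complex.cos ψ' - 1)) := by
    linear_combination h0
  have h3 : ‖(4 : ℂ)‖ ≤ ‖Complex.cos ψ - 1‖ + ‖Complex.cos ψ' - 1‖ := by
    rw [e, norm_neg]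
    exact norm_add_le _ _
  have h5 : ‖(4 : ℂ)‖ = 4 := by simp
  linarith

/-- the shapes in terms of `X`, `G` -/
lemma shapes (hH : S_HLOC) {ψ ψ' u : ℂ} (h : HP ψ ψ' u) :
    WW ψ u = (Complex.exp (Complex.I * u) + Complex.exp (Complex.I * ψ)) /
      (1 + Complex.exp (Complex.I * u) * Complex.exp (Complex.I * ψ)) ∧
    fla ψ u = flS (t1 (Complex.exp (Complex.I * u)) (Complex.exp (Complex.I * ψ)))
      (t2 (Complex.exp (Complex.I * u)) (Complex.exp (Complex.I * ψ))) := by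
  obtain ⟨h1, h2, h3, -, -⟩ := hH ψ ψ' u h
  have hn := nr h
  have hX := ne_X hn
  have hG := ne_G hn
  have hG1 := ne_G1 hn
  have hXG := ne_XG hn
  have hX1 := ne_X1 hn
  have hW : WW ψ u = (Complex.exp (Complex.I * u) + Complex.exp (Complex.I * ψ)) /
      (1 + Complex.exp (Complex.I * u) * Complex.exp (Complex.I * ψ)) := by
    rw [← h1, WW, tt]
    congr 1
    field_simp
  refine ⟨hW, ?_⟩
  have hG2 : Complex.exp (Complex.I * ψ) ≠ 1 := by
    intro h0
    have hs := h.sm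
    have h0' := norm_pos_iff.2 h.ne
    have h1 : ‖Complex.exp (Complex.I * ψ) - 1 - Complex.I * ψ‖ ≤ ‖Complex.I * ψ‖ ^ 2 :=
      Complex.norm_exp_sub_one_sub_id_le (by rw [norm_mul, Complex.norm_I, one_mul]; linarith)
    rw [h0, sub_self, zero_sub, norm_neg, norm_mul, Complex.norm_I, one_mul] at h1
    nlinarith
  have hG3 : Complex.exp (Complex.I * ψ) - 1 ≠ 0 := sub_ne_zero.2 hG2
  have hG4 : Complex.exp (Complex.I * ψ) + 1 ≠ 0 := by rwa [add_comm]
  have hY : YY ψ = (Complex.exp (Complex.I * ψ))⁻¹ := by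
    rw [YY, Complex.exp_neg]
  rw [fla, hW, hY]
  set X := Complex.exp (Complex.I * u)
  set G := Complex.exp (Complex.I * ψ)
  have e1 : 1 - G⁻¹ = (G - 1) / G := by
    field_simp
  have e2 : 1 - G⁻¹ * ((X + G) / (1 + X * G)) = X * (G - 1) * (G + 1) / (G * (1 + X * G)) := by
    rw [eq_div_iff (mul_ne_zero hG hXG)]
    have hw : (X + G) / (1 + X * G) * (1 + X * G) = X + G := div_mul_cancel₀ _ hXG
    have hg : G⁻¹ * G = 1 := inv_mul_cancel₀ hG
    linear_combination (-((X + G) / (1 + X * G) * (1 + X * G))) * hg - hw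
  have e3 : 1 - (X + G) / (1 + X * G) = (X - 1) * (G - 1) / (1 + X * G) := by
    field_simp
    ring
  congr 1
  · rw [e1, e2, t1]
    field_simp
  · rw [e2, e3, t2, add_comm 1 G]
    field_simp

theorem shp : S_HLOC → S_SHP := by
  intro hH ψ ψ' u h
  have h' := hp_symm h
  obtain ⟨hW, hf⟩ := shapes hH h
  obtain ⟨hW', hf'⟩ := shapes hH h'
  have hn := nr h
  have hn' := nr h'
  have hg1 := hinge h (den h)
  have hg2 := hinge h' (den h')
  have hX := ne_X hn
  have hX1 := ne_X1 hn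
  have hG := ne_G hn
  have hG1 := ne_G1 hn
  have hXG := ne_XG hn
  have hXaG := ne_XaG hn
  have hK := ne_G hn'
  have hK1 := ne_G1 hn'
  have hXK := ne_XG hn'
  have hXaK := ne_XaG hn'
  have r1 := re1 hn
  have r2 := re2 hn
  have r3 := re3 hn
  have s1 := re1 hn'
  have s2 := re2 hn'
  have s3 := re3 hn'
  have a1 := arg_half r1.1 r1.2
  have a2 := arg_half r2.1 r2.2
  have b1 := arg_half s1.1 s1.2
  have b2 := arg_half s2.1 s2.2
  have q1 := one_sub_t1 hn
  have q2 := one_sub_inv_t1 hn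
  have q3 := one_sub_t2 hn
  have q4 := one_sub_inv_t2 hn
  have p1 := one_sub_t1 hn'
  have p2 := one_sub_inv_t1 hn'
  have p3 := one_sub_t2 hn'
  have p4 := one_sub_inv_t2 hn'
  obtain ⟨t10, t11, t12, t13, t14, t15, -, -, -⟩ := tri r1.2
  obtain ⟨t20, t21, t22, t23, t24, t25, -, -, -⟩ := tri r2.2
  obtain ⟨u10, u11, u12, u13, u14, u15, -, -, -⟩ := tri s1.2
  obtain ⟨u20, u21, u22, u23, u24, u25, -, -, -⟩ := tri s2.2
  have hLg : |(Lg u ψ).im| ≤ 11 / 100 := by
    obtain ⟨-, h2, -⟩ := hH ψ ψ' u h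
    have e : Lg u ψ = 2 * Complex.I * (tt ψ u + Complex.I * ψ / 2) + ψ := by
      rw [tt]
      have hI : Complex.I * Complex.I = -1 := Complex.I_mul_I
      field_simp
      linear_combination (-ψ) * hI
    have h3 : ‖Lg u ψ‖ ≤ 11 / 100 := by
      rw [e]
      have h4 := norm_add_le (2 * Complex.I * (tt ψ u + Complex.I * ψ / 2)) ψ
      rw [norm_mul, norm_mul, Complex.norm_two, Complex.norm_I, mul_one] at h4
      have := h.sm
      linarith
    exact (Complex.abs_im_le_norm _).trans h3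
  have hre : |ψ.re| ≤ 1 / 10 := (Complex.abs_re_le_norm _).trans h.sm
  rw [abs_le] at hre hLg
  have hpi := Real.pi_gt_three
  have hYe : -Complex.exp (-(Complex.I * ψ)) = -(Complex.exp (Complex.I * ψ))⁻¹ := by
    rw [Complex.exp_neg]
  have A1 := arg_neg_exp (Complex.I * ψ)
  have A2 := arg_neg_exp (-(Complex.I * ψ))
  rw [hYe] at A2
  have A3 := arg_neg_exp (Lg u ψ)
  have hW2 : Complex.exp (Lg u ψ) = WW ψ u := rfl
  rw [hW2, hW] at A3
  have i1 : (Complex.I * ψ).im = ψ.re := by simp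
  have i2 : (-(Complex.I * ψ)).im = -ψ.re := by simp
  rw [i1] at A1
  rw [i2] at A2
  have c1 := arg_lt_half r3
  rw [← q2] at c1
  have nz1 : (1 : ℂ) - t2 (Complex.exp (Complex.I * u)) (Complex.exp (Complex.I * ψ)) ≠ 0 := t21
  rw [hf, hf']
  set X := Complex.exp (Complex.I * u)
  set G := Complex.exp (Complex.I * ψ)
  set K := Complex.exp (Complex.I * ψ')
  have hX1' : 1 - X ≠ 0 := by
    intro h0
    apply hX1
    linear_combination -h0
  have z1 : 1 / (1 - t1 X G) ≠ 0 := one_div_ne_zero t11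
  have z2 : 1 / (1 - t2 X G) ≠ 0 := one_div_ne_zero t21
  have z3 : 1 - 1 / t1 X G ≠ 0 := by rw [q2]; exact div_ne_zero t20 hG
  have z4 : 1 - 1 / t2 X G ≠ 0 := by
    rw [q4]
    exact div_ne_zero (neg_ne_zero.2 hXaG) (mul_ne_zero hX1 hG)
  have y1 : 1 / (1 - t1 X K) ≠ 0 := one_div_ne_zero u11
  have y2 : 1 / (1 - t2 X K) ≠ 0 := one_div_ne_zero u21
  have y4 : 1 - 1 / t2 X K ≠ 0 := by
    rw [p4]
    exact div_ne_zero (neg_ne_zero.2 hXaK) (mul_ne_zero hX1 hK)
  refine ⟨⟨t14.1, t12.1, t13.1, by simp only [flS]; linarith, t24.1, t22.1, t23.1,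
    by simp only [flS]; linarith⟩, ?_, ?_, ?_, ?_, ?_⟩
  · -- the edge
    simp only [flS]
    apply ang_eq
    · have e := arg4 z1 z4 y1 y4
      rw [Real.Angle.coe_two_pi]
      have e2 : 1 / (1 - t1 X G) * (1 - 1 / t2 X G) * (1 / (1 - t1 X K)) * (1 - 1 / t2 X K) = 1 := by
        rw [q1, q4, p1, p4]
        field_simp
        apply mul_left_cancel₀ (mul_ne_zero (pow_ne_zero 2 hG1) (pow_ne_zero 2 hK1))
        linear_combination (-((1 + K) ^ 2 * ((1 + X * G) * (X + G)))) * hg1 -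
          (-((1 - X) ^ 2 * G * (1 + K) ^ 2)) * hg2
      rw [e2, Complex.arg_one, Real.Angle.coe_zero] at e
      rw [← e]
      congr 1
      ring
    · rw [abs_lt]
      constructor <;> linarith [t12.1, t12.2, t23.1, t23.2, u12.1, u12.2, u23.1, u23.2]
  · simp only [flS]
    apply ang_eq
    · have e := arg4 z3 z3 u10 y2
      have e2 : (1 - 1 / t1 X G) * (1 - 1 / t1 X G) * t1 X K * (1 / (1 - t2 X K)) = -G⁻¹ := by
        rw [q2, p3, t1, t2]
        field_simp
        linear_combination (-1) * hg1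
      rw [e2, A2] at e
      have e3 : π - ψ.re = -ψ.re + π := by ring
      rw [e3, ← e]
      congr 1
      ring
    · rw [abs_lt]
      constructor <;> linarith [t13.1, t13.2, b1.1, b1.2, u22.1, u22.2]
  · simp only [flS]
    apply ang_eq
    · have e := arg4 t20 t20 u10 y2
      have e2 : t2 X G * t2 X G * t1 X K * (1 / (1 - t2 X K)) = -G := by
        rw [p3, t1, t2]
        field_simp
        linear_combination (-1) * hg1
      rw [e2, A1] at e
      have e3 : π + ψ.re = ψ.re + π := by ring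
      rw [e3, ← e]
      congr 1
      ring
    · rw [abs_lt]
      constructor <;> linarith [a2.1, a2.2, b1.1, b1.2, u22.1, u22.2]
  · simp only [Fl.tw, flS]
    have : (t1 X G).arg + (t2 X G).arg + (1 / (1 - t1 X G)).arg = ψ.re + π := by
      apply ang_eq
      · have e := arg3 t10 t20 z1
        have e2 : t1 X G * t2 X G * (1 / (1 - t1 X G)) = -G := by
          rw [q1, t1, t2]
          field_simp
          ring
        rw [e, e2, A1]
      · rw [abs_lt]
        constructor <;> linarith [a1.1, a1.2, a2.1, a2.2, t12.1, t12.2]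
    linarith
  · simp only [Fl.cr, flS]
    have : (t1 X G).arg + (t2 X G).arg + (1 - 1 / t2 X G).arg = (Lg u ψ).im + π := by
      apply ang_eq
      · have e := arg3 t10 t20 z4
        have e2 : t1 X G * t2 X G * (1 - 1 / t2 X G) = -((X + G) / (1 + X * G)) := by
          rw [q4, t1, t2]
          field_simp
          ring
        rw [e, e2, A3]
      · rw [abs_lt]
        constructor <;> linarith [a1.1, a1.2, a2.1, a2.2, t23.1, t23.2]
    linarith

end Pool.Agent.W864.AR
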